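import Mathlib

open TopologicalSpace Set Filter Topology

namespace Pool.Agent.Results.MP_722163_an.PartiallyBicyclic

universe u

/-- The three generators `a`, `b`, `c`. -/
inductive Gen
  | a | b | c

/-- The defining relations `ab = e` and `ac = e`, as a relation on the free monoid on
`a, b, c`. -/
inductive Rel : FreeMonoid Gen → FreeMonoid Gen → Prop
  | ab : Rel (FreeMonoid.of Gen.a * FreeMonoid.of Gen.b) 1
  | ac : Rel (FreeMonoid.of Gen.a * FreeMonoid.of Gen.c) 1

/-- The partially bicyclic semigroup `S₂ = ⟨e, a, b, c : ab = ac = e⟩`: the monoid with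
generators `a, b, c` presented by the relations `ab = e` and `ac = e`. -/
abbrev S2 : Type := PresentedMonoid Rel

section Defs

variable {𝕜 : Type} [RCLike 𝕜] {E : Type u} [NormedAddCommGroup E] [NormedSpace 𝕜 E]

/-- The distance of two points of the dual of `E` in the dual norm. (`WeakDual 𝕜 E` is the dual
of `E` with the weak* topology; `WeakDual.toStrongDual` is the identity map onto the same space
with the dual norm.) -/
noncomputable def normDist (x y : WeakDual 𝕜 E) : ℝ :=
  ‖WeakDual.toStrongDual x - WeakDual.toStrongDual y‖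

/-- `C` is separable in the dual norm. -/
def NormSeparable (C : Set (WeakDual 𝕜 E)) : Prop :=
  IsSeparable (WeakDual.toStrongDual '' C)

/-- Joint continuity of `(s, x) ↦ T s x` from `S × C` to `C`, where `S` is discrete and `C` carries
the weak* topology. -/
def JointlyContinuous {S : Type} (C : Set (WeakDual 𝕜 E)) (T : S → C → C) : Prop :=
  letI : TopologicalSpace S := ⊥
  Continuous fun p : S × C => T p.1 p.2

/-- `T` is a norm nonexpansive, jointly weak* continuous representation of the (discrete)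
semigroup `S` on `C`. -/
structure IsRep {S : Type} [Semigroup S] (C : Set (WeakDual 𝕜 E)) (T : S → C → C) : Prop where
  /-- `T` is a representation: `T_{st} = T_s T_t`. -/
  map_mul : ∀ (s t : S) (x : C), T (s * t) x = T s (T t x)
  /-- every `T_s` is norm nonexpansive. -/
  nonexpansive : ∀ (s : S) (x y : C), normDist (T s x : WeakDual 𝕜 E) (T s y) ≤ normDist x.1 y.1
  /-- joint continuity. -/
  continuous : JointlyContinuous C T

end Defs

/-- The fixed point property `(F_{*s})` of a discrete semigroup `S`, for Banach spaces over `𝕜`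
(the real or the complex numbers): for every Banach space `E`, every nonempty, norm separable,
weak* compact convex `C` in the dual of `E` and every norm nonexpansive, jointly weak*
continuous representation `T` of `S` on `C`, there is a common fixed point in `C`. -/
def HasFStarS (𝕜 : Type) [RCLike 𝕜] (S : Type) [Semigroup S] : Prop :=
  ∀ (E : Type u) [NormedAddCommGroup E] [NormedSpace 𝕜 E] [CompleteSpace E]
    (C : Set (WeakDual 𝕜 E)),
    C.Nonempty → IsCompact C → Convex ℝ C → NormSeparable C →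
    ∀ T : S → C → C, IsRep C T → ∃ x : C, ∀ s : S, T s x = x

/-- Minimal nonempty compact sets with a property stable under intersections. -/
theorem exists_min {W : Type*} [TopologicalSpace W] [T2Space W] (P : Set W → Prop)
    (hP : ∀ c : Set (Set W), c.Nonempty → (∀ s ∈ c, P s) → P (⋂₀ c))
    (C : Set W) (hC : IsCompact C) (hne : C.Nonempty) (hPC : P C) :
    ∃ F ⊆ C, F.Nonempty ∧ IsCompact F ∧ P F ∧
      ∀ G ⊆ F, G.Nonempty → IsCompact G → P G → G = F := by
  obtain ⟨m, hmC, hm⟩ := zorn_superset_nonempty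
    {G : Set W | G.Nonempty ∧ IsCompact G ∧ P G} (by
      intro c hcS hchain hcne
      refine ⟨⋂₀ c, ⟨?_, ?_, ?_⟩, fun s hs => sInter_subset_of_mem hs⟩
      · have : Nonempty c := hcne.to_subtype
        refine IsCompact.nonempty_sInter_of_directed_nonempty_isCompact_isClosed ?_
          (fun U hU => (hcS hU).1) (fun U hU => (hcS hU).2.1)
          (fun U hU => (hcS hU).2.1.isClosed)
        exact fun x hx y hy => (hchain.total hx hy).elim
          (fun h => ⟨x, hx, subset_rfl, h⟩) (fun h => ⟨y, hy, h, subset_rfl⟩)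
      · obtain ⟨s, hs⟩ := hcne
        refine (hcS hs).2.1.of_isClosed_subset ?_ (sInter_subset_of_mem hs)
        exact isClosed_sInter fun U hU => (hcS hU).2.1.isClosed
      · exact hP c hcne fun s hs => (hcS hs).2.2)
    C ⟨hne, hC, hPC⟩
  refine ⟨m, hmC, hm.prop.1, hm.prop.2.1, hm.prop.2.2, fun G hG h1 h2 h3 => ?_⟩
  exact hm.eq_of_subset ⟨h1, h2, h3⟩ hG |>.symm ▸ rfl

/-- A distance preserving self-map of a compact set is onto. -/
theorem surj_of_isometric {X : Type*} [MetricSpace X] (K : Set X) (hK : IsCompact K)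
    (f : X → X) (hf : MapsTo f K K) (hiso : ∀ x ∈ K, ∀ y ∈ K, dist (f x) (f y) = dist x y) :
    ∀ y ∈ K, ∃ x ∈ K, f x = y := by
  intro y hy
  by_contra hcon
  push Not at hcon
  have hcont : ContinuousOn f K := by
    rw [Metric.continuousOn_iff]
    intro b hb ε hε
    exact ⟨ε, hε, fun a ha hab => by rw [hiso a ha b hb]; exact hab⟩
  have himg : IsCompact (f '' K) := hK.image_of_continuousOn hcont
  have hyn : y ∉ f '' K := fun ⟨x, hx, hxy⟩ => hcon x hx hxy
  obtain ⟨δ, hδ, hball⟩ := Metric.isOpen_iff.1 himg.isClosed.isOpen_compl y hyn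
  -- iterates
  have hit : ∀ n, f^[n] y ∈ K := by
    intro n
    induction n with
    | zero => simpa using hy
    | succ n ih => rw [Function.iterate_succ_apply']; exact hf ih
  have hdist : ∀ n m, n < m → δ ≤ dist (f^[n] y) (f^[m] y) := by
    intro n
    induction n with
    | zero =>
      intro m hm
      obtain ⟨k, rfl⟩ : ∃ k, m = k + 1 := ⟨m - 1, by omega⟩
      rw [Function.iterate_succ_apply']
      by_contra hlt
      push Not at hlt
      have : f (f^[k] y) ∈ Metric.ball y δ := by
        rw [Metric.mem_ball, dist_comm]; simpa using hlt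
      exact hball this ⟨_, hit k, rfl⟩
    | succ n ih =>
      intro m hm
      obtain ⟨k, rfl⟩ : ∃ k, m = k + 1 := ⟨m - 1, by omega⟩
      rw [Function.iterate_succ_apply', Function.iterate_succ_apply',
        hiso _ (hit n) _ (hit k)]
      exact ih k (by omega)
  obtain ⟨a, ha, φ, hφ, hlim⟩ := hK.isSeqCompact (x := fun n => f^[n] y) hit
  have hcau := hlim.cauchySeq
  rw [Metric.cauchySeq_iff] at hcau
  obtain ⟨N, hN⟩ := hcau δ hδ
  have h1 := hN N le_rfl (N + 1) (by omega)
  have h2 := hdist (φ N) (φ (N + 1)) (hφ (by omega))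
  simp only [Function.comp] at h1
  exact absurd h1 (not_lt.2 h2)

/-- A nondegenerate compact set in a real normed space has a non-diametral point in its convex
hull. -/
theorem exists_nondiametral {X : Type*} [NormedAddCommGroup X] [NormedSpace ℝ X] (K : Set X)
    (hK : IsCompact K) (d : ℝ) (hd : 0 < d) (hne : K.Nonempty)
    (hdiam : ∀ x ∈ K, ∀ y ∈ K, dist x y ≤ d) :
    ∃ u ∈ convexHull ℝ K, ∃ r, r < d ∧ ∀ y ∈ K, dist u y ≤ r := by
  classical
  obtain ⟨t, htK, htfin, hcov⟩ := hK.finite_cover_balls (half_pos hd)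
  lift t to Finset X using htfin
  have htne : t.Nonempty := by
    obtain ⟨x, hx⟩ := hne
    obtain ⟨i, hi, _⟩ := mem_iUnion₂.1 (hcov hx)
    exact ⟨i, hi⟩
  have hcard : (0 : ℝ) < t.card := by exact_mod_cast htne.card_pos
  refine ⟨(t.card : ℝ)⁻¹ • ∑ i ∈ t, i, ?_, d * (1 - 1 / (2 * t.card)), ?_, ?_⟩
  · rw [Finset.smul_sum]
    refine (convex_convexHull ℝ K).sum_mem (fun i _ => by positivity) ?_ ?_
    · rw [Finset.sum_const, nsmul_eq_mul]
      field_simp
    · intro i hi
      exact subset_convexHull ℝ K (htK hi)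
  · have : 0 < 1 / (2 * (t.card : ℝ)) := by positivity
    nlinarith
  · intro y hy
    obtain ⟨j, hj, hyj⟩ := mem_iUnion₂.1 (hcov hy)
    have h1 : (t.card : ℝ)⁻¹ • ∑ i ∈ t, i - y = (t.card : ℝ)⁻¹ • ∑ i ∈ t, (i - y) := by
      rw [Finset.sum_sub_distrib, Finset.sum_const, smul_sub, ← Nat.cast_smul_eq_nsmul ℝ,
        smul_smul, inv_mul_cancel₀ hcard.ne', one_smul]
    rw [dist_eq_norm, h1, norm_smul, norm_inv, Real.norm_natCast]
    have h2 : ‖∑ i ∈ t, (i - y)‖ ≤ (t.card - 1) * d + d / 2 := by
      calc ‖∑ i ∈ t, (i - y)‖ ≤ ∑ i ∈ t, ‖i - y‖ := norm_sum_le _ _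
        _ = ‖j - y‖ + ∑ i ∈ t.erase j, ‖i - y‖ := (Finset.add_sum_erase t _ hj).symm
        _ ≤ d / 2 + ∑ i ∈ t.erase j, d := by
            refine add_le_add ?_ (Finset.sum_le_sum fun i hi => ?_)
            · have := hyj
              rw [Metric.mem_ball, dist_comm, dist_eq_norm] at this
              exact this.le
            · have := hdiam i (htK (Finset.mem_of_mem_erase hi)) y hy
              rwa [dist_eq_norm] at this
        _ = (t.card - 1) * d + d / 2 := by
            rw [Finset.sum_const, Finset.card_erase_of_mem hj, nsmul_eq_mul,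
              Nat.cast_sub htne.card_pos]
            push_cast
            ring
    calc (t.card : ℝ)⁻¹ * ‖∑ i ∈ t, (i - y)‖ ≤ (t.card : ℝ)⁻¹ * ((t.card - 1) * d + d / 2) := by
          gcongr
      _ = d * (1 - 1 / (2 * t.card)) := by
          field_simp
          ring

/-- Norm distance on the weak dual. -/
theorem main_lemma {𝕜 : Type*} [RCLike 𝕜] {E : Type*} [NormedAddCommGroup E] [NormedSpace 𝕜 E]
    {M : Type*} [Monoid M] (C : Set (WeakDual 𝕜 E)) (hne : C.Nonempty) (hC : IsCompact C)
    (hconv : Convex ℝ C) (hsep : IsSeparable (WeakDual.toStrongDual '' C))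
    (T : M → WeakDual 𝕜 E → WeakDual 𝕜 E) (hmap : ∀ s, MapsTo (T s) C C)
    (hmul : ∀ s t, ∀ x ∈ C, T (s * t) x = T s (T t x))
    (hnon : ∀ s, ∀ x ∈ C, ∀ y ∈ C,
      dist (WeakDual.toStrongDual (T s x)) (WeakDual.toStrongDual (T s y)) ≤
        dist (WeakDual.toStrongDual x) (WeakDual.toStrongDual y))
    (hcont : ∀ s, ContinuousOn (T s) C)
    (hiso : ∀ s, ∀ x ∈ C, ∀ y ∈ C, T 1 x = x → T 1 y = y →
      dist (WeakDual.toStrongDual x) (WeakDual.toStrongDual y) ≤
      dist (WeakDual.toStrongDual (T s x)) (WeakDual.toStrongDual (T s y))) :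
    ∃ x ∈ C, ∀ s, T s x = x := by
  -- a minimal invariant compact convex set
  obtain ⟨C₀, hC₀C, hC₀ne, hC₀, ⟨hC₀conv, hC₀inv⟩, hC₀min⟩ := exists_min
    (fun G => Convex ℝ G ∧ ∀ s, MapsTo (T s) G G) (by
      intro c _ hc
      refine ⟨convex_sInter fun s hs => (hc s hs).1, fun s x hx => ?_⟩
      exact mem_sInter.2 fun U hU => (hc U hU).2 s (mem_sInter.1 hx U hU)) C hC hne
    ⟨hconv, hmap⟩
  -- a minimal invariant compact set in it
  obtain ⟨F, hFC₀, hFne, hF, hFinv, hFmin⟩ := exists_min
    (fun G => ∀ s, MapsTo (T s) G G) (by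
      intro c _ hc s x hx
      exact mem_sInter.2 fun U hU => (hc U hU) s (mem_sInter.1 hx U hU)) C₀ hC₀ hC₀ne hC₀inv
  have hFC : F ⊆ C := hFC₀.trans hC₀C
  -- `T 1` is the identity on `F`
  have hT1 : ∀ x ∈ F, T 1 x = x := by
    have h1 : T 1 '' F = F := by
      refine hFmin _ (image_subset_iff.2 (hFinv 1)) (hFne.image _)
        (hF.image_of_continuousOn ((hcont 1).mono hFC)) ?_
      rintro s _ ⟨x, hx, rfl⟩
      refine ⟨T s x, hFinv s hx, ?_⟩
      rw [← hmul 1 s x (hFC hx), ← hmul s 1 x (hFC hx), one_mul, mul_one]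
    intro x hx
    rw [← h1] at hx
    obtain ⟨y, hy, rfl⟩ := hx
    rw [← hmul 1 1 y (hFC hy), one_mul]
  have hisoF : ∀ s, ∀ x ∈ F, ∀ y ∈ F,
      dist (WeakDual.toStrongDual (T s x)) (WeakDual.toStrongDual (T s y)) =
        dist (WeakDual.toStrongDual x) (WeakDual.toStrongDual y) := fun s x hx y hy =>
    le_antisymm (hnon s x (hFC hx) y (hFC hy))
      (hiso s x (hFC hx) y (hFC hy) (hT1 x hx) (hT1 y hy))
  -- total boundedness
  set F' : Set (StrongDual 𝕜 E) := WeakDual.toStrongDual '' F with hF'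
  have hTB : TotallyBounded F' := by
    rw [Metric.totallyBounded_iff]
    intro ε hε
    obtain ⟨D, hDc, hDF⟩ := hsep.mono (image_mono hFC : F' ⊆ _)
    -- Baire category
    have : CompactSpace F := isCompact_iff_compactSpace.1 hF
    have : Nonempty F := hFne.to_subtype
    have : Countable D := hDc.to_subtype
    obtain ⟨d, x₀, hx₀⟩ := nonempty_interior_of_iUnion_of_closed (X := F) (ι := D)
      (f := fun d => {x : F | WeakDual.toStrongDual (x : WeakDual 𝕜 E) ∈
        Metric.closedBall (d : StrongDual 𝕜 E) (ε / 3)})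
      (fun d => (WeakDual.isClosed_closedBall (d : StrongDual 𝕜 E) (ε / 3)).preimage
        continuous_subtype_val) (by
        refine eq_univ_of_forall fun x => mem_iUnion.2 ?_
        have hx : WeakDual.toStrongDual (x : WeakDual 𝕜 E) ∈ closure D :=
          hDF (mem_image_of_mem _ x.2)
        obtain ⟨d, hd, hxd⟩ := Metric.mem_closure_iff.1 hx (ε / 3) (by positivity)
        exact ⟨⟨d, hd⟩, hxd.le⟩)
    set U : Set F := interior {x : F | WeakDual.toStrongDual (x : WeakDual 𝕜 E) ∈
        Metric.closedBall (d : StrongDual 𝕜 E) (ε / 3)} with hU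
    have hUopen : IsOpen U := isOpen_interior
    have hUdist : ∀ x ∈ U, ∀ y ∈ U, dist (WeakDual.toStrongDual (x : WeakDual 𝕜 E))
        (WeakDual.toStrongDual (y : WeakDual 𝕜 E)) < ε := by
      intro x hx y hy
      have h1 := interior_subset hx
      have h2 := interior_subset hy
      simp only [mem_ofPred_eq, Metric.mem_closedBall] at h1 h2
      have h3 := dist_triangle_right (WeakDual.toStrongDual (x : WeakDual 𝕜 E))
        (WeakDual.toStrongDual (y : WeakDual 𝕜 E)) (d : StrongDual 𝕜 E)
      linarith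
    -- the maps on the subtype
    obtain ⟨TF, hTF⟩ : ∃ TF : M → F → F, ∀ s x, (TF s x : WeakDual 𝕜 E) = T s x :=
      ⟨fun s x => ⟨T s x, hFinv s x.2⟩, fun _ _ => rfl⟩
    have hTFc : ∀ s, Continuous (TF s) := by
      intro s
      rw [continuous_induced_rng]
      have : (Subtype.val ∘ TF s) = F.domRestrict (T s) := by
        funext x
        exact hTF s x
      rw [this]
      exact ((hcont s).mono hFC).domRestrict
    have hcover : (univ : Set F) ⊆ ⋃ s : M, TF s ⁻¹' U := by
      intro x _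
      -- orbit closure
      have horb : closure (range fun s => TF s x) = univ := by
        have hcl : IsClosed (closure (range fun s => TF s x)) := isClosed_closure
        have h2 : (Subtype.val '' closure (range fun s => TF s x) : Set (WeakDual 𝕜 E)) = F := by
          refine hFmin _ ?_ ?_ ?_ ?_
          · rintro _ ⟨y, _, rfl⟩
            exact y.2
          · exact ⟨_, TF 1 x, subset_closure ⟨1, rfl⟩, rfl⟩
          · exact (hcl.isCompact).image continuous_subtype_val
          · rintro s _ ⟨y, hy, rfl⟩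
            refine ⟨TF s y, ?_, hTF s y⟩
            have : MapsTo (TF s) (range fun s => TF s x) (range fun s => TF s x) := by
              rintro _ ⟨t, rfl⟩
              refine ⟨s * t, Subtype.ext ?_⟩
              simp only [hTF]
              exact hmul s t x (hFC x.2)
            exact this.closure (hTFc s) hy
        refine eq_univ_of_forall fun y => ?_
        obtain ⟨z, hz, hzy⟩ := h2.ge y.2
        rwa [← Subtype.ext hzy]
      have hd : Dense (range fun s => TF s x) := fun y => by rw [horb]; trivial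
      obtain ⟨_, ⟨s, rfl⟩, hy⟩ := hd.exists_mem_open hUopen ⟨x₀, hx₀⟩
      exact mem_iUnion.2 ⟨s, hy⟩
    obtain ⟨t, ht⟩ := isCompact_univ.elim_finite_subcover (fun s : M => TF s ⁻¹' U)
      (fun s => hUopen.preimage (hTFc s)) hcover
    -- choose centres
    have hch : ∀ s : M, ∃ z : F, (∃ w : F, TF s w ∈ U) → TF s z ∈ U := by
      intro s
      by_cases h : ∃ w : F, TF s w ∈ U
      · exact ⟨h.choose, fun _ => h.choose_spec⟩
      · exact ⟨x₀, fun h' => absurd h' h⟩
    choose g hg using hch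
    refine ⟨(fun s => WeakDual.toStrongDual (g s : WeakDual 𝕜 E)) '' (t : Set M),
      (t.finite_toSet).image _, ?_⟩
    rintro _ ⟨x, hx, rfl⟩
    obtain ⟨s, hs, hxs⟩ := mem_iUnion₂.1 (ht (mem_univ (⟨x, hx⟩ : F)))
    refine mem_iUnion₂.2 ⟨_, ⟨s, hs, rfl⟩, ?_⟩
    have h1 : TF s ⟨x, hx⟩ ∈ U := hxs
    have h2 := hUdist _ h1 _ (hg s ⟨_, h1⟩)
    rw [hTF, hTF, hisoF s x hx _ (g s).2] at h2
    rw [Metric.mem_ball]
    exact h2
  have hcl : IsClosed F' := by
    have : F' = StrongDual.toWeakDual ⁻¹' F := by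
      ext x
      constructor
      · rintro ⟨y, hy, rfl⟩
        exact hy
      · intro hx
        exact ⟨_, hx, rfl⟩
    rw [this]
    exact hF.isClosed.preimage NormedSpace.Dual.toWeakDual_continuous
  have hF'c : IsCompact F' := hTB.isCompact_of_isClosed hcl
  -- onto
  have honto : ∀ s, ∀ y ∈ F, ∃ x ∈ F, T s x = y := by
    intro s y hy
    obtain ⟨x, hx, hxy⟩ := surj_of_isometric F' hF'c
      (fun x => WeakDual.toStrongDual (T s (StrongDual.toWeakDual x))) (by
        rintro _ ⟨x, hx, rfl⟩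
        exact ⟨_, hFinv s hx, rfl⟩) (by
        rintro _ ⟨x, hx, rfl⟩ _ ⟨z, hz, rfl⟩
        exact hisoF s x hx z hz) (WeakDual.toStrongDual y) ⟨y, hy, rfl⟩
    obtain ⟨x, hx, rfl⟩ := hx
    exact ⟨x, hx, by simpa using hxy⟩
  -- `F` is a single point
  obtain ⟨p, hp⟩ := hFne
  have hF'ne : F'.Nonempty := ⟨_, p, hp, rfl⟩
  by_cases hsub : ∀ x ∈ F', ∀ y ∈ F', dist x y ≤ 0
  · refine ⟨p, hFC hp, fun s => ?_⟩
    have := hsub _ ⟨_, hFinv s hp, rfl⟩ _ ⟨p, hp, rfl⟩
    have h := dist_le_zero.1 this
    exact WeakDual.toStrongDual.injective h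
  · exfalso
    push Not at hsub
    obtain ⟨x₁, hx₁, y₁, hy₁, hxy₁⟩ := hsub
    -- the diameter
    have hbdd : Bornology.IsBounded F' := hF'c.isBounded
    set δ := Metric.diam F' with hδ
    have hδpos : 0 < δ := hxy₁.trans_le (Metric.dist_le_diam_of_mem hbdd hx₁ hy₁)
    obtain ⟨u, hu, r, hr, hur⟩ := exists_nondiametral F' hF'c δ hδpos hF'ne
      fun x hx y hy => Metric.dist_le_diam_of_mem hbdd hx hy
    -- the set of centres
    set C₁ : Set (WeakDual 𝕜 E) := {x | x ∈ C₀ ∧ ∀ y ∈ F,
      dist (WeakDual.toStrongDual x) (WeakDual.toStrongDual y) ≤ r} with hC₁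
    have hC₁eq : C₁ = C₀ := by
      have hform : C₁ = C₀ ∩ ⋂ y ∈ F, WeakDual.toStrongDual ⁻¹'
          Metric.closedBall (WeakDual.toStrongDual y : StrongDual 𝕜 E) r := by
        ext x
        simp [hC₁, Metric.mem_closedBall]
      refine hC₀min C₁ (fun x hx => hx.1) ?_ ?_ ⟨?_, ?_⟩
      · refine ⟨StrongDual.toWeakDual u, ?_, ?_⟩
        · have : convexHull ℝ F' ⊆ StrongDual.toWeakDual ⁻¹' C₀ := by
            refine convexHull_min ?_ ?_
            · rintro _ ⟨x, hx, rfl⟩
              exact hFC₀ hx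
            · intro x hx y hy a b ha hb hab
              exact hC₀conv hx hy ha hb hab
          exact this hu
        · intro y hy
          exact hur _ ⟨y, hy, rfl⟩
      · refine hC₀.of_isClosed_subset ?_ fun x hx => hx.1
        rw [hform]
        exact hC₀.isClosed.inter (isClosed_biInter fun y _ => WeakDual.isClosed_closedBall _ _)
      · rw [hform]
        refine hC₀conv.inter (convex_iInter₂ fun y _ => ?_)
        intro a ha b hb s t hs ht hst
        exact convex_closedBall (WeakDual.toStrongDual y : StrongDual 𝕜 E) r ha hb hs ht hst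
      · rintro s x ⟨hx, hxF⟩
        refine ⟨hC₀inv s hx, fun y hy => ?_⟩
        obtain ⟨z, hz, rfl⟩ := honto s y hy
        exact (hnon s x (hC₀C hx) z (hFC hz)).trans (hxF z hz)
    have hle : δ ≤ max r 0 := by
      refine Metric.diam_le_of_forall_dist_le (le_max_right _ _) ?_
      rintro _ ⟨x, hx, rfl⟩ _ ⟨y, hy, rfl⟩
      have : x ∈ C₁ := hC₁eq ▸ hFC₀ hx
      exact (this.2 y hy).trans (le_max_left _ _)
    exact absurd hle (not_le.2 (max_lt hr hδpos))

/-- `a * b = 1` in `S₂`. -/
theorem a_mul_b : PresentedMonoid.of Rel Gen.a * PresentedMonoid.of Rel Gen.b = 1 :=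
  PresentedMonoid.mk_eq_mk_of_rel Rel.ab

/-- `a * c = 1` in `S₂`. -/
theorem a_mul_c : PresentedMonoid.of Rel Gen.a * PresentedMonoid.of Rel Gen.c = 1 :=
  PresentedMonoid.mk_eq_mk_of_rel Rel.ac

/-- The map from the free monoid on two letters to `S₂` with image generated by `b` and `c`. -/
def phi : FreeMonoid Bool →* S2 :=
  FreeMonoid.lift fun i => if i then PresentedMonoid.of Rel Gen.b else PresentedMonoid.of Rel Gen.c

theorem left_inv (w : FreeMonoid Bool) : ∃ v : S2, v * phi w = 1 := by
  induction w using FreeMonoid.inductionOn' with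
  | one => exact ⟨1, by simp⟩
  | of_mul x w ih =>
    obtain ⟨v, hv⟩ := ih
    refine ⟨v * PresentedMonoid.of Rel Gen.a, ?_⟩
    have h : PresentedMonoid.of Rel Gen.a * phi (FreeMonoid.of x) = 1 := by
      cases x
      · simpa [phi] using a_mul_c
      · simpa [phi] using a_mul_b
    rw [map_mul, mul_assoc, ← mul_assoc _ (phi (FreeMonoid.of x)), h, one_mul, hv]

/-- **The partially bicyclic semigroup has the fixed point property `(F_{*s})`.** -/
theorem result (𝕜 : Type) [RCLike 𝕜] : HasFStarS.{u} 𝕜 S2 := by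
  classical
  intro E _ _ _ C hne hC hconv hsep T hrep
  obtain ⟨hmul, hnon, hcont⟩ := hrep
  have hcont' : ∀ s, Continuous (T s) := by
    intro s
    let _ : TopologicalSpace S2 := ⊥
    exact hcont.comp (Continuous.prodMk_right s)
  obtain ⟨T', hT'⟩ : ∃ T' : FreeMonoid Bool → WeakDual 𝕜 E → WeakDual 𝕜 E,
      ∀ s (x : C), T' s x = T (phi s) x :=
    ⟨fun s x => if h : x ∈ C then (T (phi s) ⟨x, h⟩ : WeakDual 𝕜 E) else x, fun s x => by
      simp [x.2]⟩
  obtain ⟨p, hpC, hp⟩ := main_lemma C hne hC hconv hsep T' (by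
      intro s x hx
      have := hT' s ⟨x, hx⟩
      simp only at this
      rw [this]
      exact Subtype.coe_prop _) (by
      intro s t x hx
      have h1 := hT' (s * t) ⟨x, hx⟩
      have h2 := hT' t ⟨x, hx⟩
      simp only at h1 h2
      rw [h1, h2, hT' s, map_mul, hmul]) (by
      intro s x hx y hy
      have h1 := hT' s ⟨x, hx⟩
      have h2 := hT' s ⟨y, hy⟩
      simp only at h1 h2
      rw [h1, h2, dist_eq_norm, dist_eq_norm]
      exact hnon _ _ _) (by
      intro s
      rw [continuousOn_iff_continuous_domRestrict]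
      have : C.domRestrict (T' s) = fun x => (T (phi s) x : WeakDual 𝕜 E) := by
        funext x
        exact hT' s x
      rw [this]
      exact continuous_subtype_val.comp (hcont' _)) (by
      intro s x hx y hy h1x h1y
      obtain ⟨v, hv⟩ := left_inv s
      have e1 := hT' 1 ⟨x, hx⟩
      have e2 := hT' 1 ⟨y, hy⟩
      have e3 := hT' s ⟨x, hx⟩
      have e4 := hT' s ⟨y, hy⟩
      simp only [h1x, h1y, map_one] at e1 e2 e3 e4
      have k1 := hmul v (phi s) ⟨x, hx⟩
      have k2 := hmul v (phi s) ⟨y, hy⟩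
      rw [hv] at k1 k2
      rw [e3, e4, dist_eq_norm, dist_eq_norm]
      have := hnon v (T (phi s) ⟨x, hx⟩) (T (phi s) ⟨y, hy⟩)
      rw [← k1, ← k2, ← e1, ← e2] at this
      exact this)
  refine ⟨⟨p, hpC⟩, ?_⟩
  have hp' : ∀ w, T (phi w) ⟨p, hpC⟩ = ⟨p, hpC⟩ := by
    intro w
    have := hT' w ⟨p, hpC⟩
    simp only [hp w] at this
    exact Subtype.ext this.symm
  have h1 : T 1 ⟨p, hpC⟩ = ⟨p, hpC⟩ := by simpa using hp' 1
  have hb : T (PresentedMonoid.of Rel Gen.b) ⟨p, hpC⟩ = ⟨p, hpC⟩ := by
    simpa [phi] using hp' (FreeMonoid.of true)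
  have hc : T (PresentedMonoid.of Rel Gen.c) ⟨p, hpC⟩ = ⟨p, hpC⟩ := by
    simpa [phi] using hp' (FreeMonoid.of false)
  have ha : T (PresentedMonoid.of Rel Gen.a) ⟨p, hpC⟩ = ⟨p, hpC⟩ := by
    have := hmul (PresentedMonoid.of Rel Gen.a) (PresentedMonoid.of Rel Gen.b) ⟨p, hpC⟩
    rw [a_mul_b, h1, hb] at this
    exact this.symm
  intro s
  obtain ⟨w, rfl⟩ := PresentedMonoid.surjective_mk s
  induction w with
  | one => exact h1
  | of x =>
    cases x
    · exact ha
    · exact hb
    · exact hc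
  | mul x y hx hy =>
    rw [map_mul, hmul, hy, hx]

end Pool.Agent.Results.MP_722163_an.PartiallyBicyclic
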